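import Mathlib
import Pool.Agent.H37.PNI.Index

set_option autoImplicit false

/-! Positive answer to Q1, with the definitions of the problem file. -/

namespace Pool.Agent.Results.MP_c4bd48_an.SeparableIndexOne

open Pool.Agent.H37.PNI

/-- There is a separable real Banach space of infinite dimension whose polynomial numerical index of
order two is equal to one. -/
theorem result :
    ∃ (E : Type) (_ : NormedAddCommGroup E) (_ : NormedSpace ℝ E) (_ : CompleteSpace E),
      TopologicalSpace.SeparableSpace E ∧ ¬ FiniteDimensional ℝ E ∧ numIndex 2 E = 1 :=
  exists_space

end Pool.Agent.Results.MP_c4bd48_an.SeparableIndexOne
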